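import Pool.Agent.U922.XR.C

set_option autoImplicit false

/-!
# MP_a93a41_nt: large values of Dirichlet polynomials with arbitrary coefficients and a generic polynomial phase

Let `A ≥ 1`, `c > 0`, `ε > 0`, `c ε ≤ 2`, let `k ≥ 3 (4A/(cε))^3` be an integer and `(b_n)` ANY sequence of complex numbers
with `|b_n| ≤ 1`. For almost every real polynomial `P` of degree at most `k` there is `C` with: for all `N ≥ 1`, all `T` with
`N^c ≤ T ≤ N^A`, all `V > 0` with `V^2 ≥ N T^ε` and all 1-spaced families of points `t_r` in `[0, T]` at which some of the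
polynomials with the coefficients `b_n e(P(n) + Q(n))`, `Q` a real polynomial of degree at most `d = (4A/(cε))^2 + 8A/(cε)`, has
an absolute value at least `V`, the number of the points is at most `C N^2 V^(-2) T^ε`; for `N > C` there is no such point.
-/

namespace Pool.Agent.Results.MP_a93a41_nt.GenericTwists

open Finset MeasureTheory

/-- the Dirichlet polynomial `D(it) = ∑_{n ≤ N} a_n n^{-it}` -/
noncomputable def D (N : ℕ) (a : ℕ → ℂ) (t : ℝ) : ℂ :=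
  ∑ n ∈ Finset.Icc 1 N, a n * (n : ℂ) ^ (-((t : ℂ) * Complex.I))

/-- the coefficients `b_n e(θ_1 n + ... + θ_k n^k + Q(n))` -/
noncomputable def twist (k : ℕ) (θ : Fin k → ℝ) (Q : Polynomial ℝ) (b : ℕ → ℂ) (n : ℕ) : ℂ :=
  b n * Complex.exp (2 * Real.pi * Complex.I * ((∑ j : Fin k, θ j * (n : ℝ) ^ ((j : ℕ) + 1) + Q.eval (n : ℝ) : ℝ) : ℂ))

theorem D_eq (k : ℕ) (θ : Fin k → ℝ) (Q : Polynomial ℝ) (b : ℕ → ℂ) (N : ℕ) (t : ℝ) : D N (twist k θ Q b) t =
    ∑ n ∈ Icc 1 N, b n * Pool.Agent.W928.MW.e ((-t / (2 * Real.pi) * Real.log n + Q.eval (n : ℝ)) +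
      Pool.Agent.U922.MV.lo k θ n) := by
  unfold D twist Pool.Agent.W928.MW.e Pool.Agent.U922.MV.lo
  refine Finset.sum_congr rfl fun n hn => ?_
  have hn0 : (n : ℂ) ≠ 0 := by
    have := (Finset.mem_Icc.1 hn).1
    exact_mod_cast (by omega : n ≠ 0)
  rw [Complex.cpow_def_of_ne_zero hn0, ← Complex.natCast_log, mul_assoc, ← Complex.exp_add]
  congr 2
  have hpi : (Real.pi : ℂ) ≠ 0 := by exact_mod_cast Real.pi_ne_zero
  push_cast
  field_simp
  ring

theorem card_le (S : Finset ℝ) (T : ℝ) (hT : 0 ≤ T) (h0 : ∀ t ∈ S, 0 ≤ t ∧ t ≤ T)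
    (hsep : ∀ t ∈ S, ∀ u ∈ S, t ≠ u → 1 ≤ |t - u|) : (S.card : ℝ) ≤ T + 1 := by
  have h1 : S.card ≤ (range (⌊T⌋₊ + 1)).card := by
    refine Finset.card_le_card_of_injOn (fun t => ⌊t⌋₊) ?_ ?_
    · intro t ht
      rw [Finset.mem_coe, Finset.mem_range]
      have := Nat.floor_mono (h0 t ht).2
      show ⌊t⌋₊ < ⌊T⌋₊ + 1
      omega
    · intro t ht u hu htu
      by_contra hne
      have h2 := hsep t ht u hu hne
      have h3 := Nat.floor_le (h0 t ht).1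
      have h4 := Nat.lt_floor_add_one t
      have h5 := Nat.floor_le (h0 u hu).1
      have h6 := Nat.lt_floor_add_one u
      simp only at htu
      rw [htu] at h3 h4
      have : |t - u| < 1 := by
        rw [abs_lt]
        constructor <;> linarith
      linarith
  rw [Finset.card_range] at h1
  have h2 := Nat.floor_le hT
  calc (S.card : ℝ) ≤ ((⌊T⌋₊ + 1 : ℕ) : ℝ) := by exact_mod_cast h1
    _ ≤ T + 1 := by push_cast; linarith

/-- For every bounded sequence `b` and almost every polynomial phase of degree at most `k`, `k ≥ 3 (4A/(cε))^3`: the bound of the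
question for all `N^c ≤ T ≤ N^A`, all `V` and all 1-spaced families, uniformly in additional polynomial phases of degree at most
`d`; and no large values at all if `N > C`. -/
theorem result (A c ε : ℝ) (hA : 1 ≤ A) (hc : 0 < c) (hε : 0 < ε) (hcε : c * ε ≤ 2) (k : ℕ)
    (hk : 3 * (4 * A / (c * ε)) ^ 3 ≤ k) (b : ℕ → ℂ) (hb : ∀ n, ‖b n‖ ≤ 1) :
    ∀ᵐ θ : Fin k → ℝ, ∃ C : ℝ, 0 < C ∧ ∀ (N : ℕ) (T V : ℝ) (S : Finset ℝ), 1 ≤ N → (N : ℝ) ^ c ≤ T → T ≤ (N : ℝ) ^ A →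
      0 < V → (N : ℝ) * T ^ ε ≤ V ^ 2 →
      (∀ t ∈ S, 0 ≤ t ∧ t ≤ T ∧ ∃ Q : Polynomial ℝ,
        Q.natDegree ≤ ⌊(4 * A / (c * ε)) ^ 2 + 2 * (4 * A / (c * ε))⌋₊ ∧ V ≤ ‖D N (twist k θ Q b) t‖) →
      (∀ t ∈ S, ∀ u ∈ S, t ≠ u → 1 ≤ |t - u|) →
      (S.card : ℝ) ≤ C * (N : ℝ) ^ 2 / V ^ 2 * T ^ ε ∧ (C < N → S = ∅) := by
  have hA0 : 0 < A := by linarith
  have hce : 0 < c * ε := by positivity
  have e0 : A / (c * ε / 4) = 4 * A / (c * ε) := by field_simp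
  have hmain := Pool.Agent.U922.XR.main A (c * ε / 4) hA (by positivity) (by linarith) k (by rw [e0]; exact hk) b hb
  rw [e0] at hmain
  filter_upwards [hmain] with θ hθ
  obtain ⟨K, hK1, hK⟩ := hθ
  have hbound : ∀ N : ℕ, 1 ≤ N → ∀ t : ℝ, |t| ≤ (N : ℝ) ^ A → ∀ Q : Polynomial ℝ,
      Q.natDegree ≤ ⌊(4 * A / (c * ε)) ^ 2 + 2 * (4 * A / (c * ε))⌋₊ →
      ‖D N (twist k θ Q b) t‖ ≤ K * (N : ℝ) ^ (1 / 2 + c * ε / 4) := by
    intro N hN t ht Q hQ
    rw [D_eq]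
    refine hK N hN _ ?_ Q hQ
    rw [abs_div, abs_neg, abs_of_pos (by positivity : (0 : ℝ) < 2 * Real.pi)]
    refine (div_le_self (abs_nonneg _) ?_).trans ht
    linarith [Real.pi_gt_three]
  obtain ⟨N1, hN1⟩ : ∃ N1 : ℝ, N1 = (K ^ 2) ^ (2 / (c * ε)) := ⟨_, rfl⟩
  have hN10 : 1 ≤ N1 := by
    rw [hN1]
    exact Real.one_le_rpow (one_le_pow₀ hK1) (by positivity)
  refine ⟨N1 ^ A + 1, by positivity, ?_⟩
  intro N T V S hN hTc hTA hV hVT hS hsep
  have hNr : (1 : ℝ) ≤ N := by exact_mod_cast hN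
  have hN0 : (0 : ℝ) < N := by linarith
  have hT1 : 1 ≤ T := (Real.one_le_rpow hNr hc.le).trans hTc
  have hT0 : 0 < T := by linarith
  -- a large value forces `N ≤ N1`
  have hkey : ∀ t ∈ S, (N : ℝ) ≤ N1 ∧ V ≤ N := by
    intro t ht
    obtain ⟨h0, hTt, Q, hQ, hVQ⟩ := hS t ht
    have h1 := hVQ.trans (hbound N hN t (by rw [abs_of_nonneg h0]; exact hTt.trans hTA) Q hQ)
    have h2 : (N : ℝ) ^ (1 + c * ε) ≤ K ^ 2 * (N : ℝ) ^ (1 + c * ε / 2) := by
      calc (N : ℝ) ^ (1 + c * ε) = (N : ℝ) * ((N : ℝ) ^ c) ^ ε := by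
            rw [← Real.rpow_mul hN0.le, Real.rpow_add hN0, Real.rpow_one]
        _ ≤ (N : ℝ) * T ^ ε := by
            refine mul_le_mul_of_nonneg_left ?_ hN0.le
            exact Real.rpow_le_rpow (by positivity) hTc hε.le
        _ ≤ V ^ 2 := hVT
        _ ≤ (K * (N : ℝ) ^ (1 / 2 + c * ε / 4)) ^ 2 := pow_le_pow_left₀ hV.le h1 2
        _ = K ^ 2 * (N : ℝ) ^ (1 + c * ε / 2) := by
            rw [mul_pow, ← Real.rpow_natCast ((N : ℝ) ^ (1 / 2 + c * ε / 4)) 2, ← Real.rpow_mul hN0.le]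
            congr 2
            push_cast
            ring
    have h3 : (N : ℝ) ^ (c * ε / 2) ≤ K ^ 2 := by
      have h4 : (N : ℝ) ^ (1 + c * ε) = (N : ℝ) ^ (c * ε / 2) * (N : ℝ) ^ (1 + c * ε / 2) := by
        rw [← Real.rpow_add hN0]
        congr 1
        ring
      rw [h4] at h2
      exact le_of_mul_le_mul_right h2 (Real.rpow_pos_of_pos hN0 _)
    refine ⟨?_, ?_⟩
    · have h5 := Real.rpow_le_rpow (by positivity) h3 (by positivity : (0 : ℝ) ≤ 2 / (c * ε))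
      rw [← Real.rpow_mul hN0.le] at h5
      have e1 : c * ε / 2 * (2 / (c * ε)) = 1 := by field_simp
      rw [e1, Real.rpow_one, ← hN1] at h5
      exact h5
    · refine hVQ.trans ?_
      unfold D twist
      refine (norm_sum_le _ _).trans ?_
      have h6 : ∀ n ∈ Icc 1 N, ‖b n * Complex.exp (2 * Real.pi * Complex.I *
          ((∑ j : Fin k, θ j * (n : ℝ) ^ ((j : ℕ) + 1) + Q.eval (n : ℝ) : ℝ) : ℂ)) *
          (n : ℂ) ^ (-((t : ℂ) * Complex.I))‖ ≤ 1 := by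
        intro n hn
        rw [norm_mul, norm_mul]
        have h7 : ‖Complex.exp (2 * Real.pi * Complex.I *
            ((∑ j : Fin k, θ j * (n : ℝ) ^ ((j : ℕ) + 1) + Q.eval (n : ℝ) : ℝ) : ℂ))‖ = 1 :=
          Pool.Agent.W928.MW.e_norm _
        have h8 : ‖(n : ℂ) ^ (-((t : ℂ) * Complex.I))‖ = 1 := by
          have hn0 : 0 < n := (Finset.mem_Icc.1 hn).1
          rw [Complex.norm_natCast_cpow_of_pos hn0]
          simp
        rw [h7, h8, mul_one, mul_one]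
        exact hb n
      refine (Finset.sum_le_card_nsmul _ _ 1 h6).trans (le_of_eq ?_)
      rw [Nat.card_Icc, Nat.add_sub_cancel, nsmul_eq_mul, mul_one]
  rcases Finset.eq_empty_or_nonempty S with hE | ⟨t, ht⟩
  · subst hE
    refine ⟨?_, fun _ => rfl⟩
    rw [Finset.card_empty, Nat.cast_zero]
    positivity
  · obtain ⟨h1, h2⟩ := hkey t ht
    refine ⟨?_, fun hlt => ?_⟩
    · have h3 := card_le S T hT0.le (fun t ht => ⟨(hS t ht).1, (hS t ht).2.1⟩) hsep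
      have h4 : T ≤ N1 ^ A := hTA.trans (Real.rpow_le_rpow hN0.le h1 hA0.le)
      have h5 : 1 ≤ (N : ℝ) ^ 2 / V ^ 2 := by
        rw [one_le_div (by positivity)]
        exact pow_le_pow_left₀ hV.le h2 2
      have h6 : 1 ≤ T ^ ε := Real.one_le_rpow hT1 hε.le
      have h7 : 0 ≤ N1 ^ A + 1 := by positivity
      have h8 : (1 : ℝ) ≤ (N : ℝ) ^ 2 / V ^ 2 * T ^ ε := by nlinarith
      calc (S.card : ℝ) ≤ (N1 ^ A + 1) * 1 := by linarith
        _ ≤ (N1 ^ A + 1) * ((N : ℝ) ^ 2 / V ^ 2 * T ^ ε) := mul_le_mul_of_nonneg_left h8 h7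
        _ = _ := by ring
    · exfalso
      have h3 : N1 ≤ N1 ^ A := by
        calc N1 = N1 ^ (1 : ℝ) := (Real.rpow_one _).symm
          _ ≤ _ := Real.rpow_le_rpow_of_exponent_le hN10 hA
      linarith

end Pool.Agent.Results.MP_a93a41_nt.GenericTwists
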