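import Mathlib
import Pool.Agent.U759.PV.Asm3

set_option autoImplicit false

/-!
# Large values at well-spaced points: the conjectured bound for supports on values of polynomials

For every `ε > 0`, `K ≥ 1`, `0 < μ ≤ 1`, `ω > 0` there is `c > 0` such that the statement of Q1 holds for this `ε`,
for all `T ≥ 1` and even without the factor `T^ε` in the conclusion, for all coefficients bounded by `1` supported on
the values `P_j(x)`, `0 ≤ x < L_j`, of any polynomials `P_j` of degree at most `K` which take positive integral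
values at most `N` at these `x` (at all scales), where `L_j ≥ N^μ`, `∑ L_j ≤ N^(1/2+c)` and where the largest of the
values of `P_j` is at least `1 + ω` times and at most twice the smallest one; and on any `N^(1/2)` further integers.
-/

namespace Pool.Agent.Results.MP_a93a41_nt.PolynomialValues

open Finset Polynomial

/-- `D(it) = ∑_{n ≤ N} a_n n^{-it}` -/
noncomputable def D (N : ℕ) (a : ℕ → ℂ) (t : ℝ) : ℂ :=
  ∑ n ∈ Icc 1 N, a n * Complex.exp (-(Complex.I * (t : ℂ) * (Real.log (n : ℝ) : ℂ)))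

/-- `n` lies in `E` or is one of the values `P_j(0), P_j(1), …, P_j(L_j - 1)`, `j ∈ J` -/
def Supp (J : Finset ℕ) (P : ℕ → ℝ[X]) (L : ℕ → ℕ) (E : Finset ℕ) (n : ℕ) : Prop :=
  n ∈ E ∨ ∃ j ∈ J, ∃ x < L j, (P j).eval (x : ℝ) = n

/-- For `j ∈ J` the polynomial `P_j` has degree at most `K`, takes integral values in `[1, N]` at
`0, 1, …, L_j - 1`, the ratio of two of these values is at most `2` and for some two of them at least `1 + ω`, and
`L_j ≥ N^μ`; moreover `∑ L_j ≤ N^(1/2+c)` and `E` has at most `N^(1/2)` elements. -/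
def Thin (N : ℕ) (μ ω c : ℝ) (K : ℕ) (J : Finset ℕ) (P : ℕ → ℝ[X]) (L : ℕ → ℕ) (E : Finset ℕ) : Prop :=
  (∀ j ∈ J, (P j).natDegree ≤ K ∧ (N : ℝ) ^ μ ≤ L j ∧
    (∀ x < L j, ∃ n : ℕ, (P j).eval (x : ℝ) = n ∧ 1 ≤ n ∧ n ≤ N) ∧
    (∀ x < L j, ∀ y < L j, (P j).eval (x : ℝ) ≤ 2 * (P j).eval (y : ℝ)) ∧
    ∃ x < L j, ∃ y < L j, (1 + ω) * (P j).eval (y : ℝ) ≤ (P j).eval (x : ℝ)) ∧
    ∑ j ∈ J, (L j : ℝ) ≤ (N : ℝ) ^ (1 / 2 + c) ∧ (E.card : ℝ) ≤ (N : ℝ) ^ (1 / 2 : ℝ)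

open Pool.Agent.U759.PV Pool.Agent.TH705.DL in
/-- Let `ε > 0`, `K ≥ 1`, `0 < μ ≤ 1`, `ω > 0`. There are `c > 0` and `C` such that the following holds. Let
`T ≥ 1`, `V² ≥ N T^ε`, let the polynomials `P_j` and `E` satisfy `Thin`, and let `|a_n| ≤ 1`, where `a_n = 0` for
all `n ≤ N` which are neither values `P_j(x)`, `x < L_j`, nor in `E`. If `S ⊂ [0,T]` is `1`-separated and
`|D(it)| ≥ V` on `S` then `|S| ≤ C N² / V²`. -/
theorem result (ε μ ω : ℝ) (K : ℕ) (hε : 0 < ε) (hμ : 0 < μ) (hμ1 : μ ≤ 1) (hω : 0 < ω) (hK : 1 ≤ K) :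
    ∃ c C : ℝ, 0 < c ∧ ∀ (N : ℕ) (J : Finset ℕ) (P : ℕ → ℝ[X]) (L : ℕ → ℕ) (E : Finset ℕ) (T V : ℝ) (a : ℕ → ℂ),
      1 ≤ N → Thin N μ ω c K J P L E → 1 ≤ T → 0 < V → N * T ^ ε ≤ V ^ 2 → (∀ n, ‖a n‖ ≤ 1) →
      (∀ n ∈ Icc 1 N, a n ≠ 0 → Supp J P L E n) →
      ∀ S : Finset ℝ, (∀ t ∈ S, 0 ≤ t ∧ t ≤ T) → (∀ t ∈ S, ∀ u ∈ S, t ≠ u → 1 ≤ |t - u|) →
        (∀ t ∈ S, V ≤ ‖D N a t‖) → (S.card : ℝ) ≤ C * ((N : ℝ) ^ 2 / V ^ 2) := by
  classical
  obtain ⟨A, hA⟩ : ∃ A : ℝ, A = max 1 (1 / ε) := ⟨_, rfl⟩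
  have hA1 : 1 ≤ A := by rw [hA]; exact le_max_left _ _
  have hA2 : 1 / ε ≤ A := by rw [hA]; exact le_max_right _ _
  obtain ⟨c, C0, hc0, hC0, h⟩ := onOne3 A μ ω K hA1 hμ hμ1 hω hK
  refine ⟨c, 2 * C0 + 2 * (2 * C0) ^ (1 / ε), hc0, ?_⟩
  intro N J P L E T V a hN hBE hT1 hV hVN ha hs S hS hsep hD
  have hN1 : (1 : ℝ) ≤ N := by exact_mod_cast hN
  have hN0 : (0 : ℝ) < N := by linarith
  have hX0 : 0 ≤ (N : ℝ) ^ 2 / V ^ 2 := by positivity
  have hC1 : 0 ≤ 2 * (2 * C0) ^ (1 / ε) := by positivity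
  rcases S.eq_empty_or_nonempty with hSe | ⟨t0, ht0⟩
  · rw [hSe]
    simp only [card_empty, Nat.cast_zero]
    exact mul_nonneg (by linarith) hX0
  have hDt : ∀ t : ℝ, D N a t = ∑ n ∈ Icc 1 N, a n * ph (-t) n := by
    intro t
    unfold D ph
    apply sum_congr rfl
    intro n _
    congr 2
    push_cast
    ring
  have hDN : ∀ t, ‖D N a t‖ ≤ N := by
    intro t
    rw [hDt]
    refine (norm_sum_le _ _).trans ?_
    calc ∑ n ∈ Icc 1 N, ‖a n * ph (-t) n‖ ≤ ∑ n ∈ Icc 1 N, (1 : ℝ) := by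
          apply sum_le_sum
          intro n _
          rw [norm_mul, ph_norm, mul_one]
          exact ha n
      _ = N := by simp
  have hVleN : V ≤ N := (hD t0 ht0).trans (hDN t0)
  have hV2 : V ^ 2 ≤ (N : ℝ) ^ 2 := pow_le_pow_left₀ hV.le hVleN 2
  have hTε : T ^ ε ≤ N := by
    have h1 : (N : ℝ) * T ^ ε ≤ N * N := by
      calc (N : ℝ) * T ^ ε ≤ V ^ 2 := hVN
        _ ≤ (N : ℝ) ^ 2 := hV2
        _ = N * N := by ring
    exact le_of_mul_le_mul_left h1 hN0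
  have hTA : T ≤ (N : ℝ) ^ A := by
    calc T = (T ^ ε) ^ (1 / ε) := by
          rw [← Real.rpow_mul (by linarith), mul_one_div_cancel hε.ne', Real.rpow_one]
      _ ≤ (N : ℝ) ^ (1 / ε) := Real.rpow_le_rpow (by positivity) hTε (by positivity)
      _ ≤ (N : ℝ) ^ A := Real.rpow_le_rpow_of_exponent_le hN1 hA2
  obtain ⟨h1, h2, h3⟩ := hBE
  set f : ℕ → ℕ → ℕ := fun j x => ⌊(P j).eval (x : ℝ)⌋₊ with hf
  have hfe : ∀ j ∈ J, ∀ x < L j, (f j x : ℝ) = (P j).eval (x : ℝ) ∧ 1 ≤ f j x ∧ f j x ≤ N := by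
    intro j hj x hx
    obtain ⟨n, hn, hn1, hn2⟩ := (h1 j hj).2.2.1 x hx
    have e : f j x = n := by
      rw [hf]
      simp only [hn, Nat.floor_natCast]
    rw [e, hn]
    exact ⟨rfl, hn1, hn2⟩
  set W : Finset ℝ := S.image (fun t => -t) with hW
  have hinj : Set.InjOn (fun t : ℝ => -t) (S : Set ℝ) := fun x _ y _ hxy => neg_injective hxy
  have hWsep : Sep W := by
    intro t ht u hu hne
    rw [hW, mem_image] at ht hu
    obtain ⟨t', ht', rfl⟩ := ht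
    obtain ⟨u', hu', rfl⟩ := hu
    have h4 := hsep t' ht' u' hu' (fun he => hne (by rw [he]))
    rw [show -t' - -u' = -(t' - u') by ring, abs_neg]
    exact h4
  have hmean := h N J L f E hN (by
      intro j hj
      obtain ⟨a1, a2, a3, a4, x, hx, y, hy, hxy⟩ := h1 j hj
      refine ⟨a2, ⟨P j, a1, fun x hx => (hfe j hj x hx).1⟩, fun x hx => (hfe j hj x hx).2, ?_, x, hx, y, hy, ?_⟩
      · intro x hx y hy
        have h4 := a4 x hx y hy
        rw [← (hfe j hj x hx).1, ← (hfe j hj y hy).1] at h4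
        exact_mod_cast h4
      · rw [(hfe j hj x hx).1, (hfe j hj y hy).1]
        exact hxy) h2 h3 T (-T) W a hTA hWsep (by
      intro t ht
      rw [hW, mem_image] at ht
      obtain ⟨t', ht', rfl⟩ := ht
      have := hS t' ht'
      constructor <;> linarith [this.1, this.2]) (by
      intro n hn hne
      rcases hs n hn hne with h5 | ⟨j, hj, x, hx, hxn⟩
      · exact Or.inl h5
      · refine Or.inr ⟨j, hj, x, hx, ?_⟩
        have e := (hfe j hj x hx).1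
        rw [hxn] at e
        exact_mod_cast e.symm) ha
  rw [hW, sum_image hinj, card_image_of_injOn hinj] at hmean
  have hmean2 : ∑ t ∈ S, ‖D N a t‖ ^ 2 ≤ C0 * ((N : ℝ) + S.card) * N := by
    refine le_trans (le_of_eq ?_) hmean
    apply sum_congr rfl
    intro t _
    rw [hDt]
  rcases le_or_gt (2 * C0 * N) (V ^ 2) with hcase | hcase
  · have h4 := (Pool.Agent.R516.MS.large (by linarith) hN0.le S (fun t => ‖D N a t‖) hmean2 hV hcase hD).1
    calc (S.card : ℝ) ≤ 2 * C0 * (N : ℝ) ^ 2 / V ^ 2 := h4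
      _ = 2 * C0 * ((N : ℝ) ^ 2 / V ^ 2) := by ring
      _ ≤ _ := mul_le_mul_of_nonneg_right (by linarith) hX0
  · have h4 : T ^ ε ≤ 2 * C0 := by
      have h5 : (N : ℝ) * T ^ ε ≤ N * (2 * C0) := by linarith
      exact le_of_mul_le_mul_left h5 hN0
    have h5 : T ≤ (2 * C0) ^ (1 / ε) := by
      calc T = (T ^ ε) ^ (1 / ε) := by
            rw [← Real.rpow_mul (by linarith), mul_one_div_cancel hε.ne', Real.rpow_one]
        _ ≤ _ := Real.rpow_le_rpow (by positivity) h4 (by positivity)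
    have h6 := Pool.Agent.R327.SI.card_sep S hsep 0 T (by linarith) hS
    have h7 : 1 ≤ (N : ℝ) ^ 2 / V ^ 2 := by
      rw [le_div_iff₀ (by positivity)]
      linarith
    have h8 : (S.card : ℝ) ≤ 2 * (2 * C0) ^ (1 / ε) := by linarith
    calc (S.card : ℝ) ≤ 2 * (2 * C0) ^ (1 / ε) * 1 := by rw [mul_one]; exact h8
      _ ≤ 2 * (2 * C0) ^ (1 / ε) * ((N : ℝ) ^ 2 / V ^ 2) := mul_le_mul_of_nonneg_left h7 hC1
      _ ≤ _ := mul_le_mul_of_nonneg_right (by linarith) hX0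

end Pool.Agent.Results.MP_a93a41_nt.PolynomialValues
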