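import Pool.Agent.U160.RF.QOne

/-!
# Montgomery's large values conjecture for randomly perturbed integers

For almost every choice of the perturbations `θ n ∈ [0,1]` (independent, uniform) the large values
conjecture holds for the Dirichlet polynomials `∑_{n ≤ N} a_n (n + θ n)^{-it}`, for all coefficients, all
well-spaced families of points and all lengths, and even in the strong mean square form.
-/

set_option autoImplicit false

namespace Pool.Agent.Results.MP_a93a41_nt.RandomFrequencies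

open MeasureTheory Finset Filter Pool.Agent.U160.RF

theorem link (θ : ℕ → ℝ) (hθ : ∀ n, θ n ∈ Set.Icc (0 : ℝ) 1) (a : ℕ → ℂ) (N : ℕ) (t : ℝ) :
    ∑ n ∈ Finset.Icc 1 N, a n * ((n + θ n : ℝ) : ℂ) ^ (-((t : ℂ) * Complex.I)) = DD (fun k => a (k + 1)) θ N t := by
  have h1 : Finset.Icc 1 N = (range N).image (· + 1) := by
    ext n; simp only [mem_Icc, mem_image, mem_range]
    constructor
    · intro h; exact ⟨n - 1, by omega, by omega⟩
    · rintro ⟨k, hk, rfl⟩; omega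
  rw [h1, sum_image (fun x _ y _ h => by simpa using h)]
  unfold DD
  apply sum_congr rfl
  intro k _
  have h2 : cl (θ (k + 1)) = θ (k + 1) := cl_eq (hθ _).1 (hθ _).2
  have h3 : (0 : ℝ) < k + 1 + θ (k + 1) := by
    have := (hθ (k + 1)).1
    positivity
  unfold lam
  rw [h2, ee_log t _ h3]
  push_cast
  rw [neg_mul]

theorem nb_link (a : ℕ → ℂ) (N : ℕ) : ∑ n ∈ Finset.Icc 1 N, ‖a n‖ ^ 2 = nb (fun k => a (k + 1)) N := by
  have h1 : Finset.Icc 1 N = (range N).image (· + 1) := by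
    ext n; simp only [mem_Icc, mem_image, mem_range]
    constructor
    · intro h; exact ⟨n - 1, by omega, by omega⟩
    · rintro ⟨k, hk, rfl⟩; omega
  rw [h1, sum_image (fun x _ y _ h => by simpa using h)]
  rfl

theorem ae_mem : ∀ᵐ θ ∂mu, ∀ n, θ n ∈ Set.Icc (0 : ℝ) 1 := by
  rw [ae_all_iff]
  intro n
  have h1 : mu.map (fun θ => θ n) = nu := by
    unfold mu
    exact Measure.infinitePi_map_eval (fun _ => nu) n
  have h2 : ∀ᵐ x ∂nu, x ∈ Set.Icc (0 : ℝ) 1 := by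
    unfold nu
    exact ae_restrict_mem measurableSet_Icc
  rw [← h1] at h2
  exact ae_of_ae_map (measurable_pi_apply n).aemeasurable h2

/-- **Montgomery's large values conjecture holds for almost every perturbation of the integers.** -/
theorem result :
    ∀ᵐ θ : ℕ → ℝ ∂(Measure.infinitePi fun _ : ℕ => (volume : Measure ℝ).restrict (Set.Icc 0 1)),
      (∀ ε : ℝ, 0 < ε → ∃ C : ℝ, 0 < C ∧
        ∀ (N : ℕ) (T V : ℝ) (a : ℕ → ℂ) (S : Finset ℝ),
          1 ≤ N → 1 ≤ T → 0 < V →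
          (∀ n, ‖a n‖ ≤ 1) →
          (N : ℝ) * T ^ ε ≤ V ^ 2 →
          (∀ t ∈ S, 0 ≤ t ∧ t ≤ T ∧
            V ≤ ‖∑ n ∈ Finset.Icc 1 N, a n * ((n + θ n : ℝ) : ℂ) ^ (-((t : ℂ) * Complex.I))‖) →
          (∀ t ∈ S, ∀ u ∈ S, t ≠ u → 1 ≤ |t - u|) →
          (S.card : ℝ) ≤ C * (N : ℝ) ^ 2 / V ^ 2 * T ^ ε) ∧
      (∀ B : ℕ, ∃ C : ℝ, ∀ (N : ℕ) (t₀ : ℝ) (a : ℕ → ℂ) (S : Finset ℝ),
          2 ≤ N →
          (∀ t ∈ S, t₀ ≤ t ∧ t ≤ t₀ + (N : ℝ) ^ B) →
          (∀ t ∈ S, ∀ u ∈ S, t ≠ u → 1 ≤ |t - u|) →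
          ∑ t ∈ S, ‖∑ n ∈ Finset.Icc 1 N, a n * ((n + θ n : ℝ) : ℂ) ^ (-((t : ℂ) * Complex.I))‖ ^ 2 ≤
            C * ((N + S.card) * Real.log N ^ 5) * ∑ n ∈ Finset.Icc 1 N, ‖a n‖ ^ 2) := by
  have h1 := ae_mem
  have h2 := ae_q1
  have h3 := ae_all_iff.2 ae_lsum
  rw [show (Measure.infinitePi fun _ : ℕ => (volume : Measure ℝ).restrict (Set.Icc 0 1)) = mu from rfl]
  filter_upwards [h1, h2, h3] with θ hθ hq hs
  refine ⟨?_, ?_⟩
  · intro ε hε
    obtain ⟨C, hC, h⟩ := hq ε hε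
    refine ⟨C, hC, ?_⟩
    intro N T V a S hN hT hV ha hVT h0 hS
    refine h N T V (fun k => a (k + 1)) S hN hT hV (fun n => ha _) hVT ?_ hS
    intro t ht
    have h5 := h0 t ht
    rw [link θ hθ a N t] at h5
    exact h5
  · intro B
    obtain ⟨C, h⟩ := hs B
    refine ⟨C, ?_⟩
    intro N t₀ a S hN h0 hS
    have h5 := h N hN t₀ S hS h0 (fun k => a (k + 1))
    rw [nb_link]
    simp_rw [link θ hθ a N]
    exact h5

end Pool.Agent.Results.MP_a93a41_nt.RandomFrequencies
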