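import Mathlib
import Pool.Agent.U108.DT.P

set_option autoImplicit false

/-!
# Large values at well-spaced points: the conjectured bound for supports on integers with restricted digits

For every `ε > 0`, every base `b` and every `m`, `ω > 0` there is `c > 0` such that the statement of Q1 holds for this
`ε`, for all `T ≥ 1` and even without the factor `T^ε` in the conclusion, for all coefficients bounded by `1` supported on
the numbers `A_j + Q_j x` (at all scales), where the digits of `x < b^(l_j)` in base `b` lie in arbitrary sets of at least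
two digits (depending on `j` and on the place), provided that there are at most `N^(1/2+c)` such numbers; and on any
`N^(1/2)` further integers.
-/

namespace Pool.Agent.Results.MP_a93a41_nt.RestrictedDigitSupports

open Finset

/-- `D(it) = ∑_{n ≤ N} a_n n^{-it}` -/
noncomputable def D (N : ℕ) (a : ℕ → ℂ) (t : ℝ) : ℂ :=
  ∑ n ∈ Icc 1 N, a n * Complex.exp (-(Complex.I * (t : ℂ) * (Real.log (n : ℝ) : ℂ)))

/-- The integers `0 ≤ x < b ^ l` whose `i`-th digit in base `b` lies in `G i`, for all `i < l`. -/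
def Dig (b : ℕ) (G : ℕ → Finset ℕ) (l : ℕ) : Finset ℕ :=
  (range (b ^ l)).filter (fun x : ℕ => ∀ i < l, x / b ^ i % b ∈ G i)

/-- `n` lies in `E` or is one of the numbers `A_j + Q_j x`, `x ∈ Dig b (G j) (l j)`, `j ∈ J`. -/
def Supp (b : ℕ) (J : Finset ℕ) (l A Q : ℕ → ℕ) (G : ℕ → ℕ → Finset ℕ) (E : Finset ℕ) (n : ℕ) : Prop :=
  n ∈ E ∨ ∃ j ∈ J, ∃ x ∈ Dig b (G j) (l j), n = A j + Q j * x

/-- For `j ∈ J`: `Q_j ≥ 1`, `ω A_j ≤ Q_j b ^ (l_j) ≤ A_j`, `b ^ (m l_j) ≥ N`, the sets `G j i`, `i < l_j`, are sets of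
at least two digits in base `b`, and `A_j + Q_j x ≤ N` for all `x ∈ Dig b (G j) (l j)`; moreover the sum over `j ∈ J` of
the numbers of elements of `Dig b (G j) (l j)` is at most `N^(1/2+c)` and `E` has at most `N^(1/2)` elements. -/
def Thin (N b m : ℕ) (ω c : ℝ) (J : Finset ℕ) (l A Q : ℕ → ℕ) (G : ℕ → ℕ → Finset ℕ) (E : Finset ℕ) : Prop :=
  (∀ j ∈ J, 1 ≤ Q j ∧ Q j * b ^ l j ≤ A j ∧ ω * A j ≤ Q j * (b : ℝ) ^ l j ∧ N ≤ b ^ (m * l j) ∧
    (∀ i < l j, G j i ⊆ range b ∧ 2 ≤ (G j i).card) ∧ ∀ x ∈ Dig b (G j) (l j), A j + Q j * x ≤ N) ∧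
    ∑ j ∈ J, ((Dig b (G j) (l j)).card : ℝ) ≤ (N : ℝ) ^ (1 / 2 + c) ∧ (E.card : ℝ) ≤ (N : ℝ) ^ (1 / 2 : ℝ)

open Pool.Agent.TH705.DL in
/-- Let `ε > 0`, let `b ≥ 2` and `m` be natural numbers and `ω > 0`. There are `c > 0` and `C` such that the following
holds. Let `N ≥ 2`, `T ≥ 1`, `V² ≥ N T^ε`, let the families and `E` satisfy `Thin`, and let `|a_n| ≤ 1`, where `a_n = 0`
for all `n ≤ N` outside the set `Supp`. If `W ⊂ [0,T]` is `1`-separated and `|D(it)| ≥ V` on `W` then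
`|W| ≤ C N² / V²`. -/
theorem result (ε : ℝ) (b m : ℕ) (hε : 0 < ε) (hb : 2 ≤ b) (ω : ℝ) (hω : 0 < ω) :
    ∃ c C : ℝ, 0 < c ∧ ∀ (N : ℕ) (J : Finset ℕ) (l A Q : ℕ → ℕ) (G : ℕ → ℕ → Finset ℕ) (E : Finset ℕ) (T V : ℝ)
      (a : ℕ → ℂ), 2 ≤ N → Thin N b m ω c J l A Q G E → 1 ≤ T → 0 < V → N * T ^ ε ≤ V ^ 2 → (∀ n, ‖a n‖ ≤ 1) →
      (∀ n ∈ Icc 1 N, a n ≠ 0 → Supp b J l A Q G E n) →
      ∀ W : Finset ℝ, (∀ t ∈ W, 0 ≤ t ∧ t ≤ T) → (∀ t ∈ W, ∀ u ∈ W, t ≠ u → 1 ≤ |t - u|) →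
        (∀ t ∈ W, V ≤ ‖D N a t‖) → (W.card : ℝ) ≤ C * ((N : ℝ) ^ 2 / V ^ 2) := by
  classical
  obtain ⟨B, hB⟩ : ∃ B : ℕ, B = ⌈1 / ε⌉₊ := ⟨_, rfl⟩
  have hB2 : 1 / ε ≤ B := by rw [hB]; exact Nat.le_ceil _
  obtain ⟨c, C0, hc0, hC0, h⟩ := Pool.Agent.U108.DT.AS.digitN b hb m B ω hω
  refine ⟨c, 2 * C0 + 2 * (2 * C0) ^ (1 / ε), hc0, ?_⟩
  intro N J l A Q G E T V a hN hThin hT1 hV hVN ha hs S hS hsep hD
  have hN1 : (1 : ℝ) ≤ N := by exact_mod_cast (by omega : 1 ≤ N)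
  have hN0 : (0 : ℝ) < N := by linarith
  have hX0 : 0 ≤ (N : ℝ) ^ 2 / V ^ 2 := by positivity
  have hC1 : 0 ≤ 2 * (2 * C0) ^ (1 / ε) := by positivity
  rcases S.eq_empty_or_nonempty with hSe | ⟨t0, ht0⟩
  · rw [hSe]
    simp only [card_empty, Nat.cast_zero]
    exact mul_nonneg (by linarith) hX0
  have hDt : ∀ t : ℝ, D N a t = ∑ n ∈ Icc 1 N, a n * ph (-t) n := by
    intro t
    unfold D ph
    apply sum_congr rfl
    intro n _
    congr 2
    push_cast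
    ring
  have hDN : ∀ t, ‖D N a t‖ ≤ N := by
    intro t
    rw [hDt]
    refine (norm_sum_le _ _).trans ?_
    calc ∑ n ∈ Icc 1 N, ‖a n * ph (-t) n‖ ≤ ∑ n ∈ Icc 1 N, (1 : ℝ) := by
          apply sum_le_sum
          intro n _
          rw [norm_mul, ph_norm, mul_one]
          exact ha n
      _ = N := by simp
  have hVleN : V ≤ N := (hD t0 ht0).trans (hDN t0)
  have hV2 : V ^ 2 ≤ (N : ℝ) ^ 2 := pow_le_pow_left₀ hV.le hVleN 2
  have hTε : T ^ ε ≤ N := by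
    have h1 : (N : ℝ) * T ^ ε ≤ N * N := by
      calc (N : ℝ) * T ^ ε ≤ V ^ 2 := hVN
        _ ≤ (N : ℝ) ^ 2 := hV2
        _ = N * N := by ring
    exact le_of_mul_le_mul_left h1 hN0
  have hTA : T ≤ (N : ℝ) ^ B := by
    calc T = (T ^ ε) ^ (1 / ε) := by
          rw [← Real.rpow_mul (by linarith), mul_one_div_cancel hε.ne', Real.rpow_one]
      _ ≤ (N : ℝ) ^ (1 / ε) := Real.rpow_le_rpow (by positivity) hTε (by positivity)
      _ ≤ (N : ℝ) ^ (B : ℝ) := Real.rpow_le_rpow_of_exponent_le hN1 hB2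
      _ = (N : ℝ) ^ B := Real.rpow_natCast _ _
  obtain ⟨h1, h2, h3⟩ := hThin
  set W : Finset ℝ := S.image (fun t => -t) with hW
  have hinj : Set.InjOn (fun t : ℝ => -t) (S : Set ℝ) := fun x _ y _ hxy => neg_injective hxy
  have hWsep : Sep W := by
    intro t ht u hu hne
    rw [hW, mem_image] at ht hu
    obtain ⟨t', ht', rfl⟩ := ht
    obtain ⟨u', hu', rfl⟩ := hu
    have h4 := hsep t' ht' u' hu' (fun he => hne (by rw [he]))
    rw [show -t' - -u' = -(t' - u') by ring, abs_neg]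
    exact h4
  have hmean := (h N J l A Q G E T hN h1 h2 h3 hTA (-T) W a hWsep (by
      intro t ht
      rw [hW, mem_image] at ht
      obtain ⟨t', ht', rfl⟩ := ht
      have := hS t' ht'
      constructor <;> linarith [this.1, this.2]) hs).1 ha
  rw [hW, sum_image hinj, card_image_of_injOn hinj] at hmean
  have hmean2 : ∑ t ∈ S, ‖D N a t‖ ^ 2 ≤ C0 * ((N : ℝ) + S.card) * N := by
    refine le_trans (le_of_eq ?_) hmean
    apply sum_congr rfl
    intro t _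
    rw [hDt]
  rcases le_or_gt (2 * C0 * N) (V ^ 2) with hcase | hcase
  · have h4 := (Pool.Agent.R516.MS.large (by linarith) hN0.le S (fun t => ‖D N a t‖) hmean2 hV hcase hD).1
    calc (S.card : ℝ) ≤ 2 * C0 * (N : ℝ) ^ 2 / V ^ 2 := h4
      _ = 2 * C0 * ((N : ℝ) ^ 2 / V ^ 2) := by ring
      _ ≤ _ := mul_le_mul_of_nonneg_right (by linarith) hX0
  · have h4 : T ^ ε ≤ 2 * C0 := by
      have h5 : (N : ℝ) * T ^ ε ≤ N * (2 * C0) := by linarith
      exact le_of_mul_le_mul_left h5 hN0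
    have h5 : T ≤ (2 * C0) ^ (1 / ε) := by
      calc T = (T ^ ε) ^ (1 / ε) := by
            rw [← Real.rpow_mul (by linarith), mul_one_div_cancel hε.ne', Real.rpow_one]
        _ ≤ _ := Real.rpow_le_rpow (by positivity) h4 (by positivity)
    have h6 := Pool.Agent.R327.SI.card_sep S hsep 0 T (by linarith) hS
    have h7 : 1 ≤ (N : ℝ) ^ 2 / V ^ 2 := by
      rw [le_div_iff₀ (by positivity)]
      linarith
    have h8 : (S.card : ℝ) ≤ 2 * (2 * C0) ^ (1 / ε) := by linarith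
    calc (S.card : ℝ) ≤ 2 * (2 * C0) ^ (1 / ε) * 1 := by rw [mul_one]; exact h8
      _ ≤ 2 * (2 * C0) ^ (1 / ε) * ((N : ℝ) ^ 2 / V ^ 2) := mul_le_mul_of_nonneg_left h7 hC1
      _ ≤ _ := mul_le_mul_of_nonneg_right (by linarith) hX0

end Pool.Agent.Results.MP_a93a41_nt.RestrictedDigitSupports
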